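import Pool.Agent.Helper64.FL.StH

/-! Full list for MP_866009_co: `ST_ARX`. -/

set_option autoImplicit false

namespace Pool.Agent.Helper64.FL

open Pool.Agent.Helper64.CT Pool.Agent.Helper64.DT
open Pool.Agent.Helper64.HG (Ovl Model Circ IC HellyCircle ChordModel)

/-- the list of a link -/
theorem arx_loc (hPTB : ST_PTB) {V : Type} (G : SimpleGraph V) (K : Set V) (a b l : V)
    (L : List V) (r : V) (h : Lnk G K a b l L r) :
    ∃ P : List V, P ≠ [] ∧ IPt G P ∧ (∀ u ∈ P, u ∈ K) ∧
      (∀ u ∈ P, G.Adj a u ↔ P.head? = some u) ∧ ∀ u ∈ P, G.Adj b u ↔ P.getLast? = some u := by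
  rcases h.pth with ⟨hlr, -⟩ | ⟨hlr, hp⟩
  · refine ⟨[l], List.cons_ne_nil _ _, ?_, ?_, ?_, ?_⟩
    · simp [IPt]
    · intro u hu
      rw [List.mem_singleton.1 hu]
      exact h.lK
    · intro u hu
      rw [List.mem_singleton.1 hu]
      exact ⟨fun _ => rfl, fun _ => h.la.symm⟩
    · intro u hu
      rw [List.mem_singleton.1 hu]
      exact ⟨fun _ => rfl, fun _ => hlr ▸ h.rb.symm⟩
  · obtain ⟨hl, hr, -⟩ := (hPTB V G).2.1 l L r h.pth
    have hlast : (l :: (L ++ [r])).getLast? = some r := by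
      rw [← List.cons_append, List.getLast?_append]
      simp
    refine ⟨l :: (L ++ [r]), List.cons_ne_nil _ _, hp, ?_, ?_, ?_⟩
    · intro u hu
      rcases List.mem_cons.1 hu with hu | hu
      · exact hu ▸ h.lK
      · rcases List.mem_append.1 hu with hu | hu
        · exact h.LK u hu
        · exact (List.mem_singleton.1 hu) ▸ h.rK
    · intro u hu
      rw [List.head?_cons]
      rcases List.mem_cons.1 hu with hu | hu
      · subst hu
        exact ⟨fun _ => rfl, fun _ => h.la.symm⟩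
      · rcases List.mem_append.1 hu with hu | hu
        · refine ⟨fun ha => ((h.Lab u hu).1 ha.symm).elim, fun he => ?_⟩
          rw [Option.some.inj he] at hl
          exact (hl hu).elim
        · have hu' := List.mem_singleton.1 hu
          subst hu'
          exact ⟨fun ha => ((h.lr hlr).2 ha.symm).elim, fun he => (hlr (Option.some.inj he)).elim⟩
    · intro u hu
      rw [hlast]
      rcases List.mem_cons.1 hu with hu | hu
      · subst hu
        exact ⟨fun ha => ((h.lr hlr).1 ha.symm).elim,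
          fun he => (hlr (Option.some.inj he).symm).elim⟩
      · rcases List.mem_append.1 hu with hu | hu
        · refine ⟨fun ha => ((h.Lab u hu).2 ha.symm).elim, fun he => ?_⟩
          rw [Option.some.inj he] at hr
          exact (hr hu).elim
        · have hu' := List.mem_singleton.1 hu
          subst hu'
          exact ⟨fun _ => rfl, fun _ => h.rb.symm⟩

theorem st_ARX (hSEP : ST_SEP) (hLKX : ST_LKX) (hPTB : ST_PTB) : ST_ARX := by
  intro V G x y n a b hab hatt hcln hinj hnc
  have key : ∀ i, ∃ P : List V, a ≤ i → i < b → (P ≠ [] ∧ IPt G P ∧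
      (∀ u ∈ P, u ∈ KC G x (y (i + 1))) ∧ (∀ u ∈ P, G.Adj (n i) u ↔ P.head? = some u) ∧
      ∀ u ∈ P, G.Adj (n (i + 1)) u ↔ P.getLast? = some u) := by
    intro i
    by_cases hi : a ≤ i ∧ i < b
    · obtain ⟨h1, h2⟩ := hatt i hi.1 hi.2
      obtain ⟨l, L, r, hL⟩ := hLKX V G x (y (i + 1)) (n i) (n (i + 1)) h1 h2
      obtain ⟨P, hP⟩ := arx_loc hPTB G _ _ _ l L r hL
      exact ⟨P, fun _ _ => hP⟩
    · exact ⟨[], fun h1 h2 => (hi ⟨h1, h2⟩).elim⟩
  choose P hP using key
  have hxn : ∀ i, a ≤ i → i ≤ b → G.Adj x (n i) := by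
    intro i h1 h2
    rcases Nat.lt_or_ge i b with h3 | h3
    · exact (hatt i h1 h3).1.1
    · have h4 := (hatt (b - 1) (by omega) (by omega)).2.1
      have h5 : b - 1 + 1 = i := by omega
      rw [h5] at h4
      exact h4
  have hC : ∀ i, a ≤ i → i < b → ∀ u ∈ P i, Comp G x (y (i + 1)) u :=
    fun i h1 h2 u hu => (hP i h1 h2).2.2.1 u hu
  refine ⟨P, ?_, hC⟩
  exact
    { ab := hab.le
      xn := hxn
      inj := hinj
      ne := fun i h1 h2 => (hP i h1 h2).1
      ip := fun i h1 h2 => (hP i h1 h2).2.1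
      far := fun i h1 h2 u hu => (hC i h1 h2 u hu).right
      fst := fun i h1 h2 => (hP i h1 h2).2.2.2.1
      lst := fun i h1 h2 => (hP i h1 h2).2.2.2.2
      cln := fun i j h1 h2 h3 h4 h5 h6 u hu ha =>
        hcln i j h1 h2 h3 h4 h5 h6 ⟨hxn j h3 h4, u, hC i h1 h2 u hu, ha⟩
      sep := fun i j h1 h2 h3 u hu w hw =>
        hSEP V G x (y (i + 1)) (y (j + 1)) (hnc (i + 1) (j + 1) (by omega) (by omega) (by omega))
          u (hC i h1 (by omega) u hu) w (hC j (by omega) h3 w hw) }

end Pool.Agent.Helper64.FL
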