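import Pool.Agent.Helper64.FL.StC

/-! Full list for MP_866009_co: `ST_H1L`. -/

set_option autoImplicit false

namespace Pool.Agent.Helper64.FL

open Pool.Agent.Helper64.CT Pool.Agent.Helper64.DT
open Pool.Agent.Helper64.HG (Ovl Model Circ IC HellyCircle ChordModel)

theorem st_H1L (hLWX : ST_LWX) (hLWA : ST_LWA) (hLWB : ST_LWB) : ST_H1L := by
  intro V G Q σ E
  by_cases hs : Sgw G Q σ
  · exact Or.inr hs
  · obtain ⟨x, y, r, W, hW⟩ := hLWX V G Q σ E hs
    left
    by_cases hc : ∀ w, Comp G y (W r) w → (∀ i, i + 2 ≤ r → ∀ n ∈ Att G y (W i), G.Adj w n) →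
        ∀ q ∈ Att G y (W (r - 1)), G.Adj w q
    · exact hLWB V G Q E.red E.ci E.mx E.big x y r W hW hc
    · push Not at hc
      obtain ⟨w, h1, h2, q, h3, h4⟩ := hc
      exact hLWA V G Q E.red E.ci E.mx E.big x y r W hW w q h1 h2 h3 h4

end Pool.Agent.Helper64.FL
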