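import Pool.Agent.Helper64.FL.StH

/-! Full list for MP_866009_co: `ST_NKM`. -/

set_option autoImplicit false

namespace Pool.Agent.Helper64.FL

open Pool.Agent.Helper64.CT Pool.Agent.Helper64.DT
open Pool.Agent.Helper64.HG (Ovl Model Circ IC HellyCircle ChordModel)

theorem st_NKM (hNKX : ST_NKX) (hSAR : ST_SAR) (hF2A : ST_F2A) (hF1A : ST_F1A) (hNKW : ST_NKW)
    (hNKO : ST_NKO) (hNKE : ST_NKE) : ST_NKM := by
  intro V G x k y hR hCI hM hD
  obtain ⟨n, P, hN⟩ := hNKX V G x k y hM hD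
  have hk5 := hM.k5
  have hxn : ∀ i, G.Adj x (n i) := fun i => (hN.arc i).xn i le_rfl (by omega)
  have hsymm : ∀ i j, (n i = n j ∨ G.Adj (n i) (n j)) → (n j = n i ∨ G.Adj (n j) (n i)) := by
    rintro i j (h | h)
    · exact Or.inl h.symm
    · exact Or.inr h.symm
  have htrans : ∀ i j l, (n i = n j ∨ G.Adj (n i) (n j)) → (n j = n l ∨ G.Adj (n j) (n l)) →
      (n i = n l ∨ G.Adj (n i) (n l)) := by
    rintro i j l (h | h) (h' | h')
    · exact Or.inl (h.trans h')
    · exact Or.inr (h ▸ h')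
    · exact Or.inr (h' ▸ h)
    · by_cases e : n i = n l
      · exact Or.inl e
      · exact Or.inr (hR.df x (n j) (n i) (n l) (hxn j) (hxn i) h.symm (hxn l) h' e)
  have hne : ∀ i j, i < j → j < i + k → n i ≠ n j :=
    fun i j h1 h2 => (hN.arc i).inj i j le_rfl h1 (by omega)
  rcases hNKW k (fun i j => n i = n j ∨ G.Adj (n i) (n j)) hM.odd hk5 (fun i => Or.inl rfl)
    hsymm htrans (fun i => Or.inl (hN.pn i).symm)
    (fun i j h1 h2 h3 h4 => hSAR V G x k n P hCI hN i j h1 h2 h3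
      (fun l h5 h6 h7 => h4 l h5 h6 (Or.inr h7))
      (fun l h5 h6 h7 => h4 l h5 h6 (htrans i j l h3 (Or.inr h7))))
    (fun i j h1 h2 h3 h4 => by
      by_contra hc
      push Not at hc
      refine hF2A V G x k n P hR hN i j h1 h2 h3 ?_ (fun l h5 h6 h7 => (hc l h5 h6).2 h7)
      rcases h4 with h4 | h4
      · exact (hne i j (by omega) h2 h4).elim
      · exact h4)
    (fun i j i' j' h1 h2 h3 h4 h5 h6 h7 h8 h9 => by
      by_contra hc
      push Not at hc
      exact hF1A V G x k n P hR hN i j i' j' h1 h2 h3 h4 h5 h6 h7 h8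
        (fun l h10 h11 h12 => h9 l h10 h11 (Or.inr h12))
        (fun l h10 h11 h12 => (hc l h10 h11).2 h12)) with h | ⟨i, h⟩
  · exact hNKO V G x k n P hR hN hM.odd h
  · exact (hNKE V G x k n P hR hN hM.odd i (fun j h1 h2 =>
      ⟨fun h3 => (h j h1 h2).1 (Or.inr h3), fun l h4 h5 => (h j h1 h2).2 l h4 h5⟩)).elim

end Pool.Agent.Helper64.FL
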