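import Pool.Agent.Helper64.FL.StG

/-! Full list for MP_866009_co: `ST_ONF`. -/

set_option autoImplicit false

namespace Pool.Agent.Helper64.FL

open Pool.Agent.Helper64.CT Pool.Agent.Helper64.DT
open Pool.Agent.Helper64.HG (Ovl Model Circ IC HellyCircle ChordModel)

theorem st_ONF (hCNB : ST_CNB) (hSPN : ST_SPN) (hEXI : ST_EXI) (hCUT : ST_CUT) : ST_ONF := by
  intro V G K φ t w L hP hy
  by_cases hφ : φ t ∨ φ w ∨ ∃ u ∈ L, φ u
  · obtain ⟨l1, f, l2, h1, h2, h3, h4, -⟩ := hCUT V G K φ t w L hP hφ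
    exact ⟨l1, f, l2, h2, h3, h4, Or.inl h1⟩
  · obtain ⟨y0, hy0, hc0⟩ := hy
    obtain ⟨cs, -, -, -, -, -, -⟩ := hCNB V G
    have hnt : ¬ φ t := fun h => hφ (Or.inl h)
    have hnw : ¬ φ w := fun h => hφ (Or.inr (Or.inl h))
    have hnL : ∀ u ∈ L, ¬ φ u := fun u hu h => hφ (Or.inr (Or.inr ⟨u, hu, h⟩))
    have hc1 : Cn G K t y0 := (cs K y0 t hc0).2
    have hyP : y0 ∉ ({v | v = t ∨ v = w ∨ v ∈ L} : Set V) := by
      rintro (h | h | h)
      · exact hnt (h ▸ hy0)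
      · exact hnw (h ▸ hy0)
      · exact hnL _ h hy0
    obtain ⟨u0, hu0, -, z0, hz0, hcz⟩ := hEXI V G K {v | v = t ∨ v = w ∨ v ∈ L} t y0 hc1
      (Or.inl rfl) hyP
    have hc2 := (cs _ _ _ hcz).2
    obtain ⟨y, M, z, hyφ, hyS, hzB, hzS, hp, hM, hyz⟩ := hSPN V G
      (K \ {v | v = t ∨ v = w ∨ v ∈ L}) {v | φ v}
      {v | ∃ u ∈ ({v | v = t ∨ v = w ∨ v ∈ L} : Set V), G.Adj v u}
      ⟨y0, hy0, z0, ⟨u0, hu0, hz0.symm⟩, hc2⟩
    obtain ⟨u1, hu1, hzu1⟩ := hzB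
    have hψ : G.Adj z t ∨ G.Adj z w ∨ ∃ u ∈ L, G.Adj z u := by
      rcases hu1 with h | h | h
      · exact Or.inl (h ▸ hzu1)
      · exact Or.inr (Or.inl (h ▸ hzu1))
      · exact Or.inr (Or.inr ⟨u1, h, hzu1⟩)
    obtain ⟨l1, f, l2, h1, h2, h3, h4, -⟩ := hCUT V G K (fun u => G.Adj z u) t w L hP hψ
    have hin : ∀ v, (v = t ∨ v = f ∨ v = w ∨ v ∈ l1 ∨ v ∈ l2) →
        v ∈ ({v | v = t ∨ v = w ∨ v ∈ L} : Set V) := by
      rintro v (h | h | h | h | h)
      · exact Or.inl h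
      · subst h
        rcases h4 with h | h | h
        · exact Or.inl h
        · exact Or.inr (Or.inl h)
        · exact Or.inr (Or.inr h)
      · exact Or.inr (Or.inl h)
      · exact Or.inr (Or.inr (h2 v h))
      · exact Or.inr (Or.inr (h3 v h))
    have hnP : ∀ v ∈ ({v | v = t ∨ v = w ∨ v ∈ L} : Set V), ¬ φ v := by
      rintro v (h | h | h)
      · exact h ▸ hnt
      · exact h ▸ hnw
      · exact hnL v h
    refine ⟨l1, f, l2, h2, h3, h4, Or.inr ⟨y, M, z, ?_⟩⟩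
    exact
      { toP2 := h1.toP2
        nt := hnt
        nf := hnP f (hin f (Or.inr (Or.inl rfl)))
        nw := hnw
        nl1 := fun u hu => hnL u (h2 u hu)
        nl2 := fun u hu => hnL u (h3 u hu)
        yK := hyS.1
        y2K := hzS.1
        l3K := fun u hu => (hM u hu).1.1
        p3 := hp
        yφ := hyφ
        y2φ := fun h => (hyz h).2
        l3φ := fun u hu => (hM u hu).2.1
        y2f := h1.ff
        y2t := h1.ft
        y2l := h1.fl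
        sep := by
          intro v hv
          have hv' := hin v hv
          refine ⟨fun h => hyS.2 (h ▸ hv'), fun h => hzS.2 (h ▸ hv'),
            fun h ha => (hyz h).1 ⟨v, hv', ha⟩, fun u hu => ⟨fun h => (hM u hu).1.2 (h ▸ hv'),
            fun ha => (hM u hu).2.2 ⟨v, hv', ha⟩⟩⟩ }

end Pool.Agent.Helper64.FL
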