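import Pool.Agent.Helper64.FL.StC

/-! Full list for MP_866009_co: `ST_PRM`. -/

set_option autoImplicit false

namespace Pool.Agent.Helper64.FL

open Pool.Agent.Helper64.CT Pool.Agent.Helper64.DT
open Pool.Agent.Helper64.HG (Ovl Model Circ IC HellyCircle ChordModel ST_GLUE0)

theorem prm_res {V : Type} {G : SimpleGraph V} {S T : Set V} (hST : S ⊆ T)
    (h : Circ (G.induce T)) : Circ (G.induce S) := by
  obtain ⟨l, r, hM⟩ := h
  refine ⟨fun s => l ⟨s.1, hST s.2⟩, fun s => r ⟨s.1, hST s.2⟩, ?_⟩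
  exact
    { lt := fun v => hM.lt _
      injl := fun u v e => by
        have := hM.injl e
        exact Subtype.ext (Subtype.mk.inj this)
      injr := fun u v e => by
        have := hM.injr e
        exact Subtype.ext (Subtype.mk.inj this)
      ne := fun u v => hM.ne _ _
      adj := fun u v => hM.adj ⟨u.1, hST u.2⟩ ⟨v.1, hST v.2⟩ }

theorem prm_cross_compl {V : Type} {G : SimpleGraph V} {A : Set V} (h : Cross G A) :
    Cross G Aᶜ := by
  intro a ha a' ha' b hb b' hb' h1 h2
  simp only [Set.mem_compl_iff, not_not] at hb hb'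
  exact (h b' hb' b hb a' ha' a ha h2.symm h1.symm).symm

theorem st_PRM (hSPG : ST_SPG) (hGL : ST_GLUE0) : ST_PRM := by
  intro V _ G hM A hA
  obtain ⟨hc, ⟨x, hx, x', hx', hxx⟩, y, hy, y', hy', hyy⟩ := hA
  have hy1 : y ∉ A := hy
  have hy1' : y' ∉ A := hy'
  apply hM.nc
  by_cases he : ∃ a ∈ A, ∃ b, b ∉ A ∧ G.Adj a b
  · obtain ⟨a, ha, b, hb, hab⟩ := he
    refine hSPG V G A a b hc ha hb hab ?_ ?_
    · by_cases e : y = b
      · refine prm_res (T := {v | v ≠ y'}) ?_ (hM.mn y')
        rintro v (rfl | hv) rfl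
        · exact hyy e
        · exact hy1' hv
      · refine prm_res (T := {v | v ≠ y}) ?_ (hM.mn y)
        rintro v (rfl | hv) hvy
        · exact e hvy.symm
        · exact hy1 (hvy ▸ hv)
    · by_cases e : x = a
      · refine prm_res (T := {v | v ≠ x'}) ?_ (hM.mn x')
        rintro v (rfl | hv) hvx
        · exact hxx (e.trans hvx)
        · exact hv (hvx ▸ hx')
      · refine prm_res (T := {v | v ≠ x}) ?_ (hM.mn x)
        rintro v (rfl | hv) hvx
        · exact e hvx.symm
        · exact hv (hvx ▸ hx)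
  · push Not at he
    refine hGL V G A (fun a ha b hb => he a ha b hb) ?_ ?_
    · refine prm_res (T := {v | v ≠ y}) ?_ (hM.mn y)
      intro v hv hvy
      exact hy1 (hvy ▸ hv)
    · refine prm_res (T := {v | v ≠ x}) ?_ (hM.mn x)
      intro v hv hvx
      exact hv (hvx ▸ hx)

end Pool.Agent.Helper64.FL
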