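import Pool.Agent.Helper64.FL.StE

/-! Module SET of fl_mods: setting a bit. -/

set_option autoImplicit false

namespace Pool.Agent.Helper72.FL

open Pool.Agent.Helper64.FL

theorem st_SET (hT : ST_TBS) (hP : ST_PXI) : ST_SET := by
  intro V G A s f L i j hM hok
  have hn := hM.n32
  have hok' : i < s.n ∧ j < s.n ∧ i ≠ j := by
    unfold okp at hok
    simp only [Bool.and_eq_true, Bool.not_eq_true', Nat.blt_eq] at hok
    obtain ⟨⟨h1, h2⟩, h3⟩ := hok
    refine ⟨h1, h2, ?_⟩
    intro h
    subst h
    simp at h3
  obtain ⟨hi, hj, hij⟩ := hok'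
  have key : ∀ m a b, a < 32 → b < 32 → tb (sb m (px i j)) (px a b) = true →
      tb m (px a b) = true ∨ (a = i ∧ b = j) ∨ (a = j ∧ b = i) := by
    intro m a b ha hb h
    rw [hT.1] at h
    rcases Bool.or_eq_true _ _ ▸ h with h | h
    · exact Or.inl h
    · have h1 : px i j = px a b := of_decide_eq_true h
      rcases hP.2.1 i j a b (by omega) (by omega) ha hb h1 with ⟨h2, h3⟩ | ⟨h2, h3⟩
      · exact Or.inr (Or.inl ⟨h2.symm, h3.symm⟩)
      · exact Or.inr (Or.inr ⟨h3.symm, h2.symm⟩)
  constructor
  · intro hadj
    exact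
      { n32 := hM.n32
        alive := hM.alive
        inj := hM.inj
        adj := by
          intro a b ha hb h
          rcases key s.e a b ha hb h with h | ⟨rfl, rfl⟩ | ⟨rfl, rfl⟩
          · exact hM.adj a b ha hb h
          · exact ⟨hi, hj, fun _ => hadj⟩
          · exact ⟨hj, hi, fun _ => hadj.symm⟩
        nad := hM.nad
        map := hM.map
        bnd := hM.bnd
        pth := hM.pth
        dis := hM.dis
        cln := hM.cln
        sep := hM.sep }
  · intro hadj
    exact
      { n32 := hM.n32
        alive := hM.alive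
        inj := hM.inj
        adj := hM.adj
        nad := by
          intro a b ha hb h
          rcases key s.d a b ha hb h with h | ⟨rfl, rfl⟩ | ⟨rfl, rfl⟩
          · exact hM.nad a b ha hb h
          · exact ⟨hi, hj, fun _ => hadj⟩
          · exact ⟨hj, hi, fun _ h' => hadj h'.symm⟩
        map := hM.map
        bnd := hM.bnd
        pth := hM.pth
        dis := hM.dis
        cln := hM.cln
        sep := hM.sep }

end Pool.Agent.Helper72.FL
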