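import Pool.Agent.Helper64.FL.StC

/-! Full list for MP_866009_co: `ST_SGX`. -/

set_option autoImplicit false

namespace Pool.Agent.Helper64.FL

open Pool.Agent.Helper64.CT Pool.Agent.Helper64.DT
open Pool.Agent.Helper64.HG (Ovl Model Circ IC HellyCircle ChordModel)

theorem st_SGX (hTDC : ST_TDC) (hH1B : ST_H1B) (hRAY : ST_RAY) : ST_SGX := by
  intro V G Q hred hpr hci hcii hnp hmx hbig
  obtain ⟨-, huniq, -, -, -, -⟩ := hRAY V G Q hred.df hmx
  -- conflicts at one vertex are conflicts at all vertices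
  have hA : ∀ x u u' y0 y, RayQ G Q x u → RayQ G Q x u' → y0 ∈ Q → y0 ≠ x → Conf G y0 u u' →
      y ∈ Q → y ≠ x → Conf G y u u' := by
    intro x u u' y0 y hu hu' hy0 hy0x hc hy hyx
    by_cases h : y = y0
    · rw [h]; exact hc
    · rcases hTDC V G Q hred.df hpr hmx x y y0 u u' hu hu' hy hyx hy0 hy0x (fun e => h e.symm)
        with h1 | h1 | h1
      · exact absurd ⟨h1, hc⟩ (hH1B V G Q hred.df hci hnp hmx x y0 y u u' hu hu' hy0 hy0x hy hyx h)
      · exact h1
      · exact absurd h1 hc.1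
  let e : V → V → V → Prop := fun x u u' => ∃ y ∈ Q, y ≠ x ∧ Conf G y u u'
  classical
  let xv : V → V := fun u => if h : ∃ x, RayQ G Q x u then h.choose else u
  let u0 : V → V := fun x => if h : ∃ u, RayQ G Q x u then h.choose else x
  have hxv : ∀ x u, RayQ G Q x u → xv u = x := by
    intro x u hu
    have hex : ∃ x, RayQ G Q x u := ⟨x, hu⟩
    have h1 : xv u = hex.choose := dif_pos hex
    rw [h1]
    exact huniq _ _ _ hex.choose_spec hu
  have hu0 : ∀ x u, RayQ G Q x u → RayQ G Q x (u0 x) := by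
    intro x u hu
    have hex : ∃ u, RayQ G Q x u := ⟨u, hu⟩
    have h1 : u0 x = hex.choose := dif_pos hex
    rw [h1]
    exact hex.choose_spec
  refine ⟨fun u => decide (e (xv u) u (u0 (xv u))), ⟨hred, hpr, hci, hcii, hnp, hmx, hbig, ?_⟩⟩
  intro x u u' y hu hu' hy hyx
  have hs : ∀ v, RayQ G Q x v → decide (e (xv v) v (u0 (xv v))) = decide (e x v (u0 x)) := by
    intro v hv
    rw [hxv x v hv]
  have hr := hu0 x u hu
  -- the core
  have core1 : ∀ v v' r, RayQ G Q x v → RayQ G Q x v' → RayQ G Q x r → Comp G y v v' →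
      e x v r → e x v' r := by
    rintro v v' r hv hv' hr hcomp ⟨y0, hy0, hy0x, hc⟩
    have h3 := hA x v r y0 y hv hr hy0 hy0x hc hy hyx
    exact ⟨y, hy, hyx, h3.congr hcomp (Comp.refl h3.far.2)⟩
  have core2 : ∀ v v' r, RayQ G Q x v → RayQ G Q x v' → RayQ G Q x r → Conf G y v v' →
      ¬ e x v r → e x v' r := by
    intro v v' r hv hv' hr hc hne
    obtain ⟨z, hz, hzx, hzy⟩ := hbig x y
    have h3 : ¬ Conf G y v r := fun h => hne ⟨y, hy, hyx, h⟩
    rcases hTDC V G Q hred.df hpr hmx x y z v r hv hr hy hyx hz hzx hzy with h4 | h4 | h4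
    · exact ⟨y, hy, hyx, (hc.congr h4 (Comp.refl hc.far.2)).symm⟩
    · exact absurd h4 h3
    · have h5 := hA x v v' y z hv hv' hy hyx hc hz hzx
      exact ⟨z, hz, hzx, (h5.congr h4 (Comp.refl h5.far.2)).symm⟩
  have core3 : ∀ v v' r, RayQ G Q x v → RayQ G Q x v' → RayQ G Q x r → Conf G y v v' →
      e x v r → ¬ e x v' r := by
    rintro v v' r hv hv' hr hc ⟨y0, hy0, hy0x, hc1⟩ ⟨y1, hy1, hy1x, hc2⟩
    have h3 := hA x v r y0 y hv hr hy0 hy0x hc1 hy hyx
    have h4 := hA x v' r y1 y hv' hr hy1 hy1x hc2 hy hyx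
    obtain ⟨side, -, hside⟩ := hcii y
    have a1 := hside _ _ hc
    have a2 := hside _ _ h3
    have a3 := hside _ _ h4
    cases hb1 : side v <;> cases hb2 : side v' <;> cases hb3 : side r <;> simp_all
  constructor
  · intro hcomp
    have hiff : e x u (u0 x) ↔ e x u' (u0 x) :=
      ⟨core1 u u' _ hu hu' hr hcomp, core1 u' u _ hu' hu hr hcomp.symm⟩
    exact (hs u hu).trans ((decide_eq_decide.mpr hiff).trans (hs u' hu').symm)
  · intro hconf heq
    have hiff : e x u (u0 x) ↔ e x u' (u0 x) :=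
      decide_eq_decide.mp ((hs u hu).symm.trans (heq.trans (hs u' hu')))
    by_cases h : e x u (u0 x)
    · exact core3 u u' _ hu hu' hr hconf h (hiff.mp h)
    · exact h (hiff.mpr (core2 u u' _ hu hu' hr hconf h))

end Pool.Agent.Helper64.FL
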