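import Pool.Agent.Helper64.FL.StC

/-! Full list for MP_866009_co: `ST_VNO`. -/

set_option autoImplicit false

namespace Pool.Agent.Helper64.FL

open Pool.Agent.Helper64.CT Pool.Agent.Helper64.DT
open Pool.Agent.Helper64.HG (Ovl Model Circ IC HellyCircle ChordModel)

theorem st_VNO (hVWC : ST_VWC) (hQAB : ST_QAB) (hVW4 : ST_VW4) : ST_VNO := by
  intro V G Q hred hci hnp hmx h a b r E n hW
  obtain ⟨P, harc, hcov, hab, hna, h1r⟩ := hVWC V G Q hred hci hmx h a b r E n hW
  have h0 := hW.at0
  have hr := hW.atr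
  by_cases h4 : 4 ≤ r
  · refine hVW4 V G hred h n P r h4 hW.ev harc hcov ?_ ?_ h1r
    · rw [h0, hr]; exact hab
    · intro i hi1 hi2
      rw [h0, hr]
      exact hna i hi1 hi2
  · have h2 : r = 2 := by
      have e1 := hW.r2
      have e2 := hW.ev
      obtain ⟨k, hk⟩ := e2
      omega
    subst h2
    have h01 := hna 1 (by omega) (by omega)
    have h02 := hna 2 (by omega) (by omega)
    refine hQAB V G hred.df hnp h n P harc ?_ h1r ?_ ?_ ?_ ?_
    · rw [h0]
      have : n 3 = b := hr
      rw [this]; exact hab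
    · rw [h0]; exact h01.1
    · rw [h0]; exact h02.1
    · have : n 3 = b := hr
      rw [this]; exact h01.2
    · have : n 3 = b := hr
      rw [this]; exact h02.2

end Pool.Agent.Helper64.FL
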