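import Pool.Agent.Helper64.FL.StC

/-! Full list for MP_866009_co: `ST_SGF`. -/

set_option autoImplicit false

namespace Pool.Agent.Helper64.FL

open Pool.Agent.Helper64.CT Pool.Agent.Helper64.DT
open Pool.Agent.Helper64.HG (Ovl Model Circ IC HellyCircle ChordModel)

theorem st_SGF (hTDC : ST_TDC) (_hRAY : ST_RAY) : ST_SGF := by
  intro V G Q σ E x u u' hu hu'
  constructor
  · intro hs y hy z hz hyx hzx hyz
    rcases hTDC V G Q E.red.df E.pr E.mx x y z u u' hu hu' hy hyx hz hzx (fun h => hyz h.symm)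
      with h | h | h
    · exact Or.inl h
    · exact absurd hs ((E.sg x u u' y hu hu' hy hyx).2 h)
    · exact Or.inr h
  · intro hs y hy hyx
    obtain ⟨z, hz, hzx, hzy⟩ := E.big x y
    rcases hTDC V G Q E.red.df E.pr E.mx x y z u u' hu hu' hy hyx hz hzx hzy with h | h | h
    · exact absurd ((E.sg x u u' y hu hu' hy hyx).1 h) hs
    · exact h
    · exact absurd ((E.sg x u u' z hu hu' hz hzx).1 h) hs

end Pool.Agent.Helper64.FL
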